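import Pool.Agent.H435R3.Weil.Irr

/-! Irreducibility of `X ^ t - e / f` for a separable polynomial `f`. -/

set_option autoImplicit false

namespace Pool.Agent.Q52.Wl

open Polynomial Finset
open Pool.Agent.H435R3.Weil (coeff_zero_pow rm_pow)

theorem irrS {F : Type*} [Field F] {t : ℕ} (ht : 2 ≤ t) (f : F[X]) (hs : f.Separable)
    (hd : 1 ≤ f.natDegree) (e : F) (he : e ≠ 0) :
    Irreducible (X ^ t - C (algebraMap F[X] (RatFunc F) (C e) / algebraMap F[X] (RatFunc F) f) :
      (RatFunc F)[X]) := by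
  classical
  have hf : f ≠ 0 := hs.ne_zero
  set φ : F[X] →+* RatFunc F := algebraMap F[X] (RatFunc F) with hφ
  have hinj : Function.Injective φ := RatFunc.algebraMap_injective F
  set c : RatFunc F := φ (C e) / φ f with hc
  have hφf : φ f ≠ 0 := by rw [map_ne_zero_iff _ hinj]; exact hf
  have hmon : (X ^ t - C c : (RatFunc F)[X]).Monic := monic_X_pow_sub_C c (by omega)
  have hnd : (X ^ t - C c : (RatFunc F)[X]).natDegree = t := natDegree_X_pow_sub_C
  have hne1 : (X ^ t - C c : (RatFunc F)[X]) ≠ 1 := by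
    intro h
    have := congrArg natDegree h
    rw [hnd, natDegree_one] at this
    omega
  rw [hmon.irreducible_iff_lt_natDegree_lt hne1]
  intro g hg hgd hdvd
  rw [mem_Ioc, hnd] at hgd
  set k := g.natDegree with hk
  have h1 := coeff_zero_pow t (by omega) c g hg hdvd
  rw [← hk] at h1
  -- write the constant coefficient as a fraction
  obtain ⟨u, w, hw0, huw⟩ := IsFractionRing.div_surjective (A := F[X]) (g.coeff 0)
  have hw : w ≠ 0 := nonZeroDivisors.ne_zero hw0
  have hφw : φ w ≠ 0 := by rw [map_ne_zero_iff _ hinj]; exact hw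
  rw [← huw, hc, div_pow, div_pow] at h1
  have h2 : φ (u ^ t * f ^ k) = φ ((-1) ^ (k * t) * C e ^ k * w ^ t) := by
    rw [map_mul, map_mul, map_mul, map_pow, map_pow, map_pow, map_pow, map_pow]
    have h3 : φ u ^ t / φ w ^ t = (-1) ^ (k * t) * (φ (C e) ^ k / φ f ^ k) := h1
    rw [div_eq_iff (pow_ne_zero _ hφw)] at h3
    rw [h3, map_neg, map_one]
    field_simp
  have h3 : u ^ t * f ^ k = (-1) ^ (k * t) * C e ^ k * w ^ t := hinj h2
  have hCe : (C e : F[X]) ≠ 0 := C_ne_zero.2 he
  have hrhs : (-1 : F[X]) ^ (k * t) * C e ^ k * w ^ t ≠ 0 :=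
    mul_ne_zero (mul_ne_zero (pow_ne_zero _ (neg_ne_zero.2 one_ne_zero)) (pow_ne_zero _ hCe))
      (pow_ne_zero _ hw)
  have hu : u ≠ 0 := by
    rintro rfl
    rw [← h3, zero_pow (by omega), zero_mul] at hrhs
    exact hrhs rfl
  -- over the algebraic closure
  obtain ⟨j, hj⟩ : ∃ j : F →+* AlgebraicClosure F, j = algebraMap F (AlgebraicClosure F) := ⟨_, rfl⟩
  have hjinj : Function.Injective (Polynomial.map j) := Polynomial.map_injective j j.injective
  have hj0 : ∀ p : F[X], p ≠ 0 → p.map j ≠ 0 := fun p hp =>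
    (Polynomial.map_ne_zero_iff j.injective).2 hp
  obtain ⟨v, hv⟩ := IsAlgClosed.exists_root (f.map j) (by
    rw [degree_map]
    intro h0
    rw [degree_eq_natDegree hf] at h0
    have : f.natDegree = 0 := by exact_mod_cast h0
    omega)
  have hv1 : rootMultiplicity v (f.map j) = 1 := by
    apply le_antisymm
    · rw [← count_roots]
      exact Multiset.nodup_iff_count_le_one.1 (nodup_roots hs.map) v
    · exact (rootMultiplicity_pos (hj0 f hf)).2 hv
  have h4 := congrArg (fun p => rootMultiplicity v (Polynomial.map j p)) h3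
  beta_reduce at h4
  rw [Polynomial.map_mul, Polynomial.map_mul, Polynomial.map_pow, Polynomial.map_pow,
    Polynomial.map_pow, rootMultiplicity_mul (mul_ne_zero (pow_ne_zero _ (hj0 u hu))
      (pow_ne_zero _ (hj0 f hf))),
    rootMultiplicity_mul (mul_ne_zero (hj0 _ (mul_ne_zero (pow_ne_zero _ (neg_ne_zero.2 one_ne_zero))
      (pow_ne_zero _ hCe))) (pow_ne_zero _ (hj0 w hw))),
    rm_pow _ v (hj0 u hu), rm_pow _ v (hj0 f hf), rm_pow _ v (hj0 w hw), hv1] at h4
  have h5 : rootMultiplicity v (((-1 : F[X]) ^ (k * t) * C e ^ k).map j) = 0 := by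
    have : ((-1 : F[X]) ^ (k * t) * C e ^ k).map j = C (j ((-1) ^ (k * t) * e ^ k)) := by
      rw [← map_C]
      congr 1
      rw [C_mul, C_pow, C_pow, C_neg, C_1]
    rw [this, rootMultiplicity_C]
  rw [h5, zero_add, mul_one] at h4
  have h7 : t ∣ k := by
    have : k = t * rootMultiplicity v (w.map j) - t * rootMultiplicity v (u.map j) := by
      omega
    rw [this, ← Nat.mul_sub]
    exact Dvd.intro _ rfl
  have h8 := Nat.le_of_dvd hgd.1 h7
  have h9 : t / 2 < t := Nat.div_lt_self (by omega) (by norm_num)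
  omega

end Pool.Agent.Q52.Wl
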