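import Pool.Agent.Q52.Wl.CRD

/-! Points of `u y^ℓ = f(x)` over large finite fields. -/

set_option autoImplicit false

namespace Pool.Agent.Q52.Wl

open Polynomial Finset

lemma exists_root_pow (F : Type) [Field F] [Fintype F] (ℓ : ℕ) (hℓ : ℓ.Prime)
    (z : F) (hz : z ≠ 0)
    (h : ∀ Q : ℕ, ℓ * Q + 1 = Fintype.card F → z ^ Q = 1) : ∃ y : F, y ≠ 0 ∧ y ^ ℓ = z := by
  classical
  have hcard : Nat.card Fˣ = Fintype.card F - 1 := by
    rw [Nat.card_eq_fintype_card, Fintype.card_units]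
  have hpos : 0 < Fintype.card F := Fintype.card_pos
  by_cases hdvd : ℓ ∣ Fintype.card F - 1
  · obtain ⟨Q, hQ⟩ := hdvd
    have hQ1 : ℓ * Q + 1 = Fintype.card F := by omega
    have h1 := h Q hQ1
    obtain ⟨g, hg⟩ := IsCyclic.exists_generator (α := Fˣ)
    obtain ⟨n, hn⟩ := (Submonoid.mem_powers_iff _ _).1
      ((mem_powers_iff_mem_zpowers).2 (hg (Units.mk0 z hz)))
    have hord : orderOf g = ℓ * Q := by
      rw [orderOf_eq_card_of_forall_mem_zpowers hg, hcard, hQ]
    have h2 : g ^ (n * Q) = 1 := by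
      rw [pow_mul, hn]
      apply Units.ext
      rw [Units.val_pow_eq_pow_val, Units.val_mk0, h1, Units.val_one]
    have h3 : ℓ * Q ∣ n * Q := by
      rw [← hord]
      exact orderOf_dvd_of_pow_eq_one h2
    have hQ0 : 0 < Q := by
      rcases Nat.eq_zero_or_pos Q with h0 | h0
      · rw [h0] at hQ1
        have := Fintype.one_lt_card (α := F)
        omega
      · exact h0
    have h4 : ℓ ∣ n := Nat.dvd_of_mul_dvd_mul_right hQ0 h3
    obtain ⟨m, rfl⟩ := h4
    refine ⟨(g ^ m : Fˣ), Units.ne_zero _, ?_⟩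
    have h5 : ((g ^ m) ^ ℓ : Fˣ) = Units.mk0 z hz := by
      rw [← pow_mul, mul_comm m ℓ, hn]
    have h6 := congrArg (fun w : Fˣ => (w : F)) h5
    simpa using h6
  · have hcop : (Nat.card Fˣ).Coprime ℓ := by
      rw [hcard]
      exact ((Nat.Prime.coprime_iff_not_dvd hℓ).2 hdvd).symm
    obtain ⟨w, hw⟩ := (powCoprime hcop).surjective (Units.mk0 z hz)
    refine ⟨(w : F), Units.ne_zero _, ?_⟩
    have h6 := congrArg (fun w : Fˣ => (w : F)) hw
    simpa using h6

/-- over large finite fields the curve has a point with `y ≠ 0` -/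
theorem exists_point (ℓ : ℕ) (hℓ : ℓ.Prime) (d : ℕ) : ∃ q₀ : ℕ, ∀ (F : Type) [Field F] [Fintype F],
    q₀ ≤ Fintype.card F → ∀ f : F[X], f.Separable → 1 ≤ f.natDegree → f.natDegree ≤ d →
    ∀ u : F, u ≠ 0 → ∃ x y : F, y ≠ 0 ∧ u * y ^ ℓ = f.eval x := by
  classical
  obtain ⟨K, hK, hcrd⟩ := crd ℓ d hℓ.two_le
  obtain ⟨N, hN⟩ := exists_nat_gt ((ℓ * ℓ * K) ^ 2)
  refine ⟨N + d + 1, ?_⟩
  intro F _ _ hq f hs hd1 hd u hu
  -- translate
  obtain ⟨c, hc⟩ : ∃ c : F, f.eval c ≠ 0 := by
    by_contra hcon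
    push Not at hcon
    have h1 : (Finset.univ : Finset F) ⊆ f.roots.toFinset := by
      intro x _
      rw [Multiset.mem_toFinset, mem_roots hs.ne_zero]
      exact hcon x
    have h2 := (Finset.card_le_card h1).trans (Multiset.toFinset_card_le _)
    have h3 := h2.trans (card_roots' f)
    rw [Finset.card_univ] at h3
    omega
  set g : F[X] := f.comp (X + C c) with hg
  have hgdeg : g.natDegree = f.natDegree := by
    rw [hg, natDegree_comp, natDegree_X_add_C, mul_one]
  have hgs : g.Separable := by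
    rw [hg, Polynomial.separable_def, derivative_comp]
    obtain ⟨a, b, hab⟩ := hs
    have h1 : derivative (X + C c : F[X]) = 1 := by
      rw [derivative_add, derivative_X, derivative_C, add_zero]
    rw [h1, one_mul]
    refine ⟨a.comp (X + C c), b.comp (X + C c), ?_⟩
    have h2 := congrArg (fun p => p.comp (X + C c)) hab
    simpa only [add_comp, mul_comp, one_comp] using h2
  have hg0 : g.eval 0 ≠ 0 := by
    rw [hg, eval_comp, eval_add, eval_X, eval_C, zero_add]
    exact hc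
  have heval : ∀ x, g.eval x = f.eval (x + c) := by
    intro x
    rw [hg, eval_comp, eval_add, eval_X, eval_C]
  suffices hsuff : ∃ x : F, g.eval x ≠ 0 ∧ ∀ Q : ℕ, ℓ * Q + 1 = Fintype.card F →
      (g.eval x / u) ^ Q = 1 by
    obtain ⟨x, hx0, hx⟩ := hsuff
    obtain ⟨y, hy, hyz⟩ := exists_root_pow F ℓ hℓ (g.eval x / u) (div_ne_zero hx0 hu) hx
    refine ⟨x + c, y, hy, ?_⟩
    rw [hyz, ← heval]
    field_simp
  by_cases hQ : ∃ Q : ℕ, ℓ * Q + 1 = Fintype.card F
  · obtain ⟨Q, hQ⟩ := hQ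
    have hQuniq : ∀ Q' : ℕ, ℓ * Q' + 1 = Fintype.card F → Q' = Q := by
      intro Q' hQ'
      have h1 : ℓ * Q' = ℓ * Q := by omega
      exact Nat.eq_of_mul_eq_mul_left hℓ.pos h1
    by_contra hcon
    push Not at hcon
    have hcon' : ∀ x : F, g.eval x ≠ 0 → g.eval x ^ Q ≠ u ^ Q := by
      intro x hx h1
      obtain ⟨Q', hQ', hne⟩ := hcon x hx
      rw [hQuniq Q' hQ'] at hne
      apply hne
      rw [div_pow, h1, div_self (pow_ne_zero _ hu)]
    set T : Finset F := (Finset.univ.filter fun a : F => a ^ ℓ = 1).erase (u ^ Q) with hT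
    have hfer : ∀ z : F, z ≠ 0 → (z ^ Q) ^ ℓ = 1 := by
      intro z hz
      rw [← pow_mul, mul_comm]
      have h1 : ℓ * Q = Fintype.card F - 1 := by omega
      rw [h1]
      exact FiniteField.pow_card_sub_one_eq_one z hz
    have hTcard : T.card ≤ ℓ - 1 := by
      rw [hT, Finset.card_erase_of_mem (by simp [hfer u hu])]
      refine Nat.sub_le_sub_right ?_ 1
      have h1 : (Finset.univ.filter fun a : F => a ^ ℓ = 1) ⊆ (X ^ ℓ - C (1 : F)).roots.toFinset := by
        intro a ha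
        rw [Finset.mem_filter] at ha
        rw [Multiset.mem_toFinset, mem_roots (X_pow_sub_C_ne_zero hℓ.pos _), IsRoot.def, eval_sub,
          eval_pow, eval_X, eval_C, ha.2, sub_self]
      refine (Finset.card_le_card h1).trans ((Multiset.toFinset_card_le _).trans ?_)
      refine (card_roots' _).trans ?_
      rw [natDegree_X_pow_sub_C]
    have hTne : T.Nonempty := by
      rw [Finset.nonempty_iff_ne_empty]
      intro hemp
      -- `g(0) ≠ 0`
      have h1 : g.eval 0 ^ Q ∈ T := by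
        rw [hT, Finset.mem_erase, Finset.mem_filter]
        exact ⟨hcon' 0 hg0, Finset.mem_univ _, hfer _ hg0⟩
      rw [hemp] at h1
      exact absurd h1 (Finset.notMem_empty _)
    have hcover : (Finset.univ : Finset F) ⊆ T.biUnion fun a =>
        Finset.univ.filter fun x : F => g.eval x = 0 ∨ g.eval x ^ Q = a := by
      intro x _
      rw [Finset.mem_biUnion]
      by_cases hx : g.eval x = 0
      · obtain ⟨a, ha⟩ := hTne
        exact ⟨a, ha, by simp [hx]⟩
      · refine ⟨g.eval x ^ Q, ?_, by simp⟩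
        rw [hT, Finset.mem_erase, Finset.mem_filter]
        exact ⟨hcon' x hx, Finset.mem_univ _, hfer _ hx⟩
    have hle := Finset.card_le_card hcover
    rw [Finset.card_univ] at hle
    have hle2 : (Fintype.card F : ℝ) ≤ ∑ a ∈ T,
        ((Fintype.card F : ℝ) / ℓ + K * Real.sqrt (Fintype.card F)) := by
      calc (Fintype.card F : ℝ) ≤ ((T.biUnion fun a =>
          Finset.univ.filter fun x : F => g.eval x = 0 ∨ g.eval x ^ Q = a).card : ℝ) := by
            exact_mod_cast hle
        _ ≤ ((∑ a ∈ T, (Finset.univ.filter fun x : F => g.eval x = 0 ∨ g.eval x ^ Q = a).card : ℕ) :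
            ℝ) := by exact_mod_cast Finset.card_biUnion_le
        _ = ∑ a ∈ T, ((Finset.univ.filter fun x : F => g.eval x = 0 ∨ g.eval x ^ Q = a).card : ℝ) := by
            push_cast
            rfl
        _ ≤ _ := Finset.sum_le_sum fun a _ => by
            have h1 := hcrd F g (by rwa [hgdeg]) (by rwa [hgdeg]) hg0 ⟨hgs, by rwa [hgdeg]⟩ a Q hQ
            convert h1
    rw [Finset.sum_const, nsmul_eq_mul] at hle2
    set q : ℝ := (Fintype.card F : ℝ) with hqdef
    have hqpos : 0 < q := by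
      rw [hqdef]
      exact_mod_cast Fintype.card_pos
    have hsq0 : 0 < Real.sqrt q := Real.sqrt_pos.2 hqpos
    have hsq : Real.sqrt q * Real.sqrt q = q := Real.mul_self_sqrt hqpos.le
    have hℓR : (0 : ℝ) < ℓ := by exact_mod_cast hℓ.pos
    have hTR : (T.card : ℝ) ≤ ℓ - 1 := by
      have h1 : (T.card : ℝ) ≤ ((ℓ - 1 : ℕ) : ℝ) := by exact_mod_cast hTcard
      rwa [Nat.cast_sub hℓ.one_le, Nat.cast_one] at h1
    have h1 : q ≤ (ℓ - 1) * (q / ℓ + K * Real.sqrt q) :=
      hle2.trans (mul_le_mul_of_nonneg_right hTR (by positivity))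
    have h2 : q ≤ ℓ * ℓ * K * Real.sqrt q := by
      have h3 : (ℓ - 1) * (q / ℓ) = q - q / ℓ := by field_simp
      have h4 : q / ℓ ≤ (ℓ - 1) * (K * Real.sqrt q) := by linarith
      have h5 : q ≤ ℓ * ((ℓ - 1) * (K * Real.sqrt q)) := by
        rwa [div_le_iff₀' hℓR] at h4
      have h6 : 0 ≤ ℓ * (K * Real.sqrt q) := by positivity
      nlinarith
    have h3 : Real.sqrt q ≤ ℓ * ℓ * K := by
      have h4 : Real.sqrt q * Real.sqrt q ≤ (ℓ * ℓ * K) * Real.sqrt q := by rwa [hsq]
      exact le_of_mul_le_mul_right h4 hsq0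
    have h4 : q ≤ (ℓ * ℓ * K) ^ 2 := by
      rw [← hsq, sq]
      exact mul_self_le_mul_self hsq0.le h3
    have h5 : (N : ℝ) ≤ q := by
      rw [hqdef]
      exact_mod_cast (by omega : N ≤ Fintype.card F)
    linarith
  · exact ⟨0, hg0, fun Q h => absurd ⟨Q, h⟩ hQ⟩

end Pool.Agent.Q52.Wl
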